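import Pool.Agent.R253.BE.Dual
import Pool.Agent.R253.BE.Hardy

/-!
# Hardy regularity of kernels of Bergman-space extremal functions (Q1 of MP_397fae_an)

For all `1 < p < ∞`, `q = p/(p-1)` and all `1 < q₁ < ∞` (in particular for all `q₁ ≥ q`): if `F` is
the `A^p` extremal function for a nonzero kernel `k ∈ A^q` and `F ∈ H^{(p-1)q₁}`, then
`k ∈ H^{q₁}`.
-/

set_option autoImplicit false

namespace Pool.Agent.Results.MP_397fae_an.KernelHardy

open Complex Metric Set Filter Topology MeasureTheory ComplexConjugate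

/-- area measure on the unit disc, normalised to have total mass one -/
noncomputable def σ : Measure ℂ := ENNReal.ofReal (1 / Real.pi) • volume.restrict (ball (0:ℂ) 1)

/-- the Bergman space `A^r`: `f` is analytic in the disc and `∫ |f|^r dσ < ∞` -/
def InBergman (r : ℝ) (f : ℂ → ℂ) : Prop :=
  DifferentiableOn ℂ f (ball 0 1) ∧ Integrable (fun z => ‖f z‖ ^ r) σ

/-- the norm of `A^r` -/
noncomputable def bergmanNorm (r : ℝ) (f : ℂ → ℂ) : ℝ := (∫ z, ‖f z‖ ^ r ∂σ) ^ (1 / r)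

/-- the functional `φ(f) = ∫ f k̄ dσ` with kernel `k` -/
noncomputable def functional (k f : ℂ → ℂ) : ℂ := ∫ z, f z * conj (k z) ∂σ

/-- `F` is the extremal function for `k`: `F ∈ A^p` has norm one and maximises `Re φ` over all
`g ∈ A^p` of norm one -/
def IsExtremal (p : ℝ) (k F : ℂ → ℂ) : Prop :=
  InBergman p F ∧ bergmanNorm p F = 1 ∧
    ∀ g, InBergman p g → bergmanNorm p g = 1 → (functional k g).re ≤ (functional k F).re

/-- the mean `M_s(f,r)` -/
noncomputable def hardyMean (s : ℝ) (f : ℂ → ℂ) (r : ℝ) : ℝ :=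
  ((2 * Real.pi)⁻¹ * ∫ θ in (0:ℝ)..(2 * Real.pi), ‖f (r * exp (θ * I))‖ ^ s) ^ (1 / s)

/-- the Hardy space `H^s`: `f` is analytic in the disc and `sup_{0<r<1} M_s(f,r) < ∞` -/
def InHardy (s : ℝ) (f : ℂ → ℂ) : Prop :=
  DifferentiableOn ℂ f (ball 0 1) ∧ ∃ C : ℝ, ∀ r ∈ Ioo (0:ℝ) 1, hardyMean s f r ≤ C

/-- **Affirmative answer to Q1.** Let `1 < p < ∞`, `q = p/(p-1)` and `1 < q₁ < ∞` (the question has
`q ≤ q₁`, which implies `1 < q₁`). If `F` is the extremal function for a nonzero kernel `k ∈ A^q`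
and `F ∈ H^{(p-1)q₁}`, then `k ∈ H^{q₁}`. -/
theorem result : ∀ p q q₁ : ℝ, 1 < p → q = p / (p - 1) → 1 < q₁ → ∀ k F : ℂ → ℂ,
    InBergman q k → (∃ z ∈ ball (0:ℂ) 1, k z ≠ 0) → IsExtremal p k F →
    InHardy ((p - 1) * q₁) F → InHardy q₁ k := by
  intro p q s hp hq hs k F hk _ hF hFH
  have hpq : p.HolderConjugate q := by
    rw [hq]; exact Real.HolderConjugate.conjExponent hp
  have hπ : 0 < 1 / Real.pi := by positivity
  have hkA : R253.BE.InA (R253.BE.am (1 / Real.pi)) q k := hk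
  have hFA : R253.BE.IsExt (R253.BE.am (1 / Real.pi)) p k F := hF
  have hcm : ∀ r θ : ℝ, (r : ℂ) * exp (θ * I) = circleMap 0 r θ := by
    intro r θ; simp [circleMap]
  set t : ℝ := s / (s - 1) with ht
  have hs1 : 0 < s - 1 := by linarith
  have hs0 : 0 < s := by linarith
  have ht1 : 1 < t := by rw [ht, one_lt_div hs1]; linarith
  have hst : (s - 1) * (t - 1) = 1 := by
    rw [ht]; field_simp; ring
  obtain ⟨_, C, hC⟩ := hFH
  set e : ℝ := (p - 1) * s with he
  have he0 : 0 < e := mul_pos (by linarith) hs0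
  have hMF : ∀ r : ℝ, 0 < r → r < 1 →
      ∫ θ in (0:ℝ)..(2 * Real.pi), ‖F (circleMap 0 r θ)‖ ^ ((p - 1) * s) ≤
        2 * Real.pi * C ^ e := by
    intro r h0 h1
    have h := hC r ⟨h0, h1⟩
    unfold hardyMean at h
    simp only [hcm] at h
    set J : ℝ := ∫ θ in (0:ℝ)..(2 * Real.pi), ‖F (circleMap 0 r θ)‖ ^ e with hJ
    have hJ0 : 0 ≤ J := intervalIntegral.integral_nonneg (by positivity) fun θ _ => by positivity
    have hJ1 : 0 ≤ (2 * Real.pi)⁻¹ * J := by positivity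
    have h2 : (2 * Real.pi)⁻¹ * J ≤ C ^ e := by
      have h3 := Real.rpow_le_rpow (by positivity) h he0.le
      rwa [← Real.rpow_mul hJ1, one_div_mul_cancel he0.ne', Real.rpow_one] at h3
    have h4 : J = 2 * Real.pi * ((2 * Real.pi)⁻¹ * J) := by
      field_simp
    have h5 := mul_le_mul_of_nonneg_left h2 (show 0 ≤ 2 * Real.pi by positivity)
    exact h4.le.trans h5
  obtain ⟨K, hK0, hK⟩ := R253.BE.ub_P1 hπ hpq hs ht1 hst hkA hFA hMF
  obtain ⟨B, hB⟩ := R253.BE.hardy_of_dual hk.1 hs ht1 hst hK0 hK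
  refine ⟨hk.1, ((2 * Real.pi)⁻¹ * B) ^ (1 / s), fun r hr => ?_⟩
  unfold hardyMean
  simp only [hcm]
  have hJ0 : 0 ≤ ∫ θ in (0:ℝ)..(2 * Real.pi), ‖k (circleMap 0 r θ)‖ ^ s :=
    intervalIntegral.integral_nonneg (by positivity) fun θ _ => by positivity
  apply Real.rpow_le_rpow (by positivity) _ (by positivity)
  exact mul_le_mul_of_nonneg_left (hB r hr.1 hr.2) (by positivity)

end Pool.Agent.Results.MP_397fae_an.KernelHardy
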